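import Pool.Agent.Q187.WR.Stack

/-! # Project WR: G1, G1E, G2, G2E, the upper triangle and the triangle with a corner cut off -/

set_option autoImplicit false

namespace Pool.Agent.Q187.WR

open Pool.Agent.H200W Pool.Agent.TH176.Nag Pool.Agent.TH603.Sur Pool.Agent.TH2.NU
open Pool.Agent.TH641.UM

theorem SurM_mono {M : Multiset ℕ} {S S' : Set (ℤ × ℤ)} (h : SurM M S') (hS : S' ⊆ S) :
    SurM M S := Sur.mono h hS

theorem top : S_TopS ∧ S_TopE := by
  constructor
  · intro hLin hTip hRT h u b t hh hb L hL hsum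
    have hc : 0 < b - t := by linarith
    refine hLin (S := {p : ℤ × ℤ | t < (p.2 : ℝ) ∧ 0 < p.1 ∧ (p.1 : ℝ) < b - p.2}) (fun _ => 0)
      (b - t) 1 t (b - t) hc (by norm_num) (by linarith) (Or.inl ?_) ?_
    · intro p h1 h2 h3 h4
      refine ⟨h1, ?_, by linarith⟩
      have h5 : (0 : ℝ) < p.1 := h3
      exact_mod_cast h5
    · refine SurM_mono (S' := RO (b - t) 1) ?_ ?_
      · refine hTip hc one_pos ?_
        have e1 : (b - t) * (1 + 1) / 1 = 2 * (b - t) := by ring
        have e2 : ((1 : ℝ) + 1) ^ 2 / 1 = 4 := by norm_num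
        rw [e1, e2]
        refine hRT (h := h) (u := u) (by linarith) (by norm_num) (by linarith) L hL ?_
        refine hsum.trans ?_
        have e3 : (2 * (b - t)) ^ 2 / 4 - 2 * (b - t) / 4 = (b - t) ^ 2 - (b - t) / 2 := by ring
        rw [e3]
        linarith
      · rintro p ⟨h1, h2, h3⟩
        have h4 : (0 : ℝ) < p.1 := by exact_mod_cast h1
        exact ⟨h1, h2, by linarith, h3⟩
  · intro hLin hTip hRT h u b t hh hb L hL hsum
    have hc : 0 < b - t := by linarith
    refine hLin (S := {p : ℤ × ℤ | t ≤ (p.2 : ℝ) ∧ 0 ≤ p.1 ∧ (p.1 : ℝ) ≤ b - p.2}) (fun _ => 0)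
      (b - t) 1 t (b - t) hc (by norm_num) (by linarith) (Or.inl ?_) ?_
    · rintro p ⟨h1, h2, h3⟩
      have h4 : (0 : ℝ) ≤ p.1 := by exact_mod_cast h2
      exact ⟨h1, by linarith, h4, by linarith⟩
    · refine EmpM.mono_set (S' := RC (b - t) 1) ?_ ?_
      · refine hTip hc one_pos ?_
        have e1 : (b - t) * (1 + 1) / 1 = 2 * (b - t) := by ring
        have e2 : ((1 : ℝ) + 1) ^ 2 / 1 = 4 := by norm_num
        rw [e1, e2]
        refine hRT (h := h) (u := u) (by linarith) (by norm_num) (by linarith) L hL ?_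
        refine le_trans ?_ hsum
        have e3 : (2 * (b - t)) ^ 2 / 4 = (b - t) ^ 2 := by ring
        rw [e3]
      · rintro p ⟨h1, h2, h3, h4⟩
        exact ⟨h1, h2, h4⟩

theorem ga_bb {M b t : ℝ} (h0 : 0 ≤ t) (hM : M ≤ t) : ga M b b t = 2 * b * t - t ^ 2 := by
  unfold ga
  rw [sub_self, sub_zero, max_eq_right h0, max_eq_left (by linarith : M - t ≤ 0)]
  ring

theorem ga_bb0 {M b : ℝ} (hM : 0 ≤ M) : ga M b b 0 = M ^ 2 := by
  unfold ga
  rw [sub_self, sub_zero, max_self, sub_zero, max_eq_right hM]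
  ring

theorem rl_bb {M b t : ℝ} (h0 : 0 ≤ t) (hM : M ≤ t) : rl M b b t = b - t := by
  unfold rl
  rw [min_eq_right (by linarith : b - t ≤ b), max_eq_left (by linarith : M - t ≤ 0)]
  ring

theorem rl_bb0 {M b : ℝ} (hM : 0 ≤ M) : rl M b b 0 = b - M := by
  unfold rl
  rw [sub_zero, sub_zero, min_self, max_eq_right hM]

theorem sq_bound {h b : ℝ} (hh : 1 ≤ h) (hb : 1664 * h ≤ b) : 1024 * h ^ 2 ≤ (b / 52) ^ 2 := by
  have h1 : 32 * h ≤ b / 52 := by linarith
  nlinarith

theorem corn : S_CornS ∧ S_CornE := by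
  constructor
  · intro hCut hDiv hStack hTop h M b hh hM hMb hb
    have hb0 : 1664 ≤ b := by linarith
    have hsq := sq_bound hh hb
    refine hDiv (t0 := 13 / 20 * b) (t1 := 3 / 4 * b) (fun t => ZO M b b 0 t)
      (fun t => {p : ℤ × ℤ | t < (p.2 : ℝ) ∧ 0 < p.1 ∧ (p.1 : ℝ) < b - p.2})
      (fun t => ga M b b t - ga M b b 0 - 6 * (t - 0))
      (fun t => (b - t) ^ 2 - (b - t)) (by linarith) ?_ ?_ ?_ (by positivity) ?_ ?_ ?_ ?_
    · have := ga_cont M b b
      exact Continuous.continuousOn (by fun_prop)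
    · rw [ga_bb (by linarith) (by linarith), ga_bb0 hM]
      nlinarith
    · rw [ga_bb0 hM, ga_bb (t := 3 / 4 * b) (by linarith) (by linarith),
        ga_bb (t := 13 / 20 * b) (by linarith) (by linarith)]
      nlinarith
    · intro t ht
      rw [ga_bb (by linarith [ht.1]) (by linarith [ht.1]), ga_bb0 hM]
      nlinarith [ht.2]
    · intro t ht
      refine hStack (G := b / 52) hh (by linarith) (by positivity) hsq (by linarith [ht.1]) ?_ ?_
      · rw [rl_bb0 hM]
        linarith
      · rw [rl_bb (by linarith [ht.1]) (by linarith [ht.1])]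
        linarith [ht.2]
    · intro t ht
      exact hTop hh (by linarith [ht.2])
    · intro t ht M1 M2 g1 g2
      refine hCut 0 1 t ?_ ?_ g1 g2
      · rintro p ⟨p1, p2, p3, p4, p5, p6⟩
        exact ⟨⟨p1, by linarith [ht.2], p3, p4, p5, p6⟩, by linarith⟩
      · rintro p ⟨p1, p2, p3⟩
        have h4 : (0 : ℝ) < p.1 := by exact_mod_cast p2
        exact ⟨⟨by linarith [ht.1], by linarith, p2, by linarith [ht.1], by linarith [ht.1], p3⟩,
          by linarith⟩
  · intro hCut hDiv hStack hTop h M b hh hM hMb hb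
    have hb0 : 1664 ≤ b := by linarith
    have hsq := sq_bound hh hb
    refine hDiv (t0 := 13 / 20 * b) (t1 := 3 / 4 * b) (fun t => ZC M b b 0 t)
      (fun t => {p : ℤ × ℤ | t ≤ (p.2 : ℝ) ∧ 0 ≤ p.1 ∧ (p.1 : ℝ) ≤ b - p.2})
      (fun t => ga M b b t - ga M b b 0)
      (fun t => (b - t) ^ 2) (by linarith) ?_ ?_ ?_ (by positivity) ?_ ?_ ?_ ?_ ?_
    · have := ga_cont M b b
      exact Continuous.continuousOn (by fun_prop)
    · rw [ga_bb (by linarith) (by linarith), ga_bb0 hM]
      nlinarith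
    · rw [ga_bb0 hM, ga_bb (t := 3 / 4 * b) (by linarith) (by linarith),
        ga_bb (t := 13 / 20 * b) (by linarith) (by linarith)]
      nlinarith
    · intro t ht
      rw [ga_bb (by linarith [ht.1]) (by linarith [ht.1]), ga_bb0 hM]
      nlinarith [ht.2]
    · intro t _
      positivity
    · intro t ht
      refine hStack (G := b / 52) hh (by linarith) (by positivity) hsq (by linarith [ht.1]) ?_ ?_
      · rw [rl_bb0 hM]
        linarith
      · rw [rl_bb (by linarith [ht.1]) (by linarith [ht.1])]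
        linarith [ht.2]
    · intro t ht
      exact hTop hh (by linarith [ht.2])
    · intro t ht M1 M2 g1 g2
      refine hCut 0 1 t (ZC_finite _ _ _ _ _) ?_ g1 g2
      rintro p ⟨p1, p2, p3, p4, p5, p6⟩
      rcases le_or_gt (p.2 : ℝ) t with g | g
      · left
        exact ⟨⟨p1, g, p3, p4, p5, p6⟩, by linarith⟩
      · right
        exact ⟨⟨g.le, p3, p6⟩, by linarith⟩

end Pool.Agent.Q187.WR
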