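import Pool.Agent.Q187.WR.StripE

/-! # Project WR: F6, F6E, stacks of strips -/

set_option autoImplicit false

namespace Pool.Agent.Q187.WR

open Pool.Agent.H200W

theorem rl_conc {M q d y0 y1 t K : ℝ} (h0 : y0 ≤ t) (h1 : t ≤ y1) (hr0 : K ≤ rl M q d y0)
    (hr1 : K ≤ rl M q d y1) : K ≤ rl M q d t := by
  unfold rl at *
  have a1 := min_le_left q (d - y0)
  have a2 := min_le_right q (d - y0)
  have a3 := le_max_left 0 (M - y0)
  have a4 := le_max_right 0 (M - y0)
  have b2 := min_le_right q (d - y1)
  have b3 := le_max_left 0 (M - y1)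
  rcases min_cases q (d - t) with ⟨e1, _⟩ | ⟨e1, _⟩ <;>
    rcases max_cases 0 (M - t) with ⟨e2, _⟩ | ⟨e2, _⟩ <;> rw [e1, e2] <;> linarith

theorem ga_grow (hA : S_Area) {M q d s t K : ℝ} (hst : s ≤ t) (hs : K ≤ rl M q d s)
    (ht : K ≤ rl M q d t) : 2 * K * (t - s) ≤ ga M q d t - ga M q d s := by
  rcases hst.eq_or_lt with rfl | hlt
  · simp
  · have hH : 0 < t - s := by linarith
    have h1 := area' hA (M := M) (q := q) (d := d) (y0 := s) hH
    have e : s + (t - s) = t := by ring
    rw [e] at h1
    rw [h1]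
    have h2 : 0 ≤ ca M s (t - s) * ((t - s) - ca M s (t - s)) :=
      mul_nonneg (ca_nonneg _ _ _) (by linarith [ca_le (M := M) (y0 := s) hH.le])
    have h3 : 0 ≤ ca (d - q) s (t - s) * ((t - s) - ca (d - q) s (t - s)) :=
      mul_nonneg (ca_nonneg _ _ _) (by linarith [ca_le (M := d - q) (y0 := s) hH.le])
    have h4 : 2 * K * (t - s) ≤ (rl M q d s + rl M q d t) * (t - s) :=
      mul_le_mul_of_nonneg_right (by linarith) hH.le
    linarith

theorem ga_cont (M q d : ℝ) : Continuous (ga M q d) := by
  unfold ga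
  fun_prop

theorem stackS_aux (hCut : S_CutS) (hArea : S_Area) (hDiv : S_DivS) (hStrip : StripS)
    {h u G M q d y1 : ℝ} (hh : 1 ≤ h) (hG : 5 * h ≤ G) (hu0 : 0 ≤ u) (hu : u ≤ G ^ 2)
    (hr1 : 13 * G ≤ rl M q d y1) (n : ℕ) : ∀ y0 : ℝ, y0 + G ≤ y1 → y1 - y0 ≤ n * G →
    13 * G ≤ rl M q d y0 →
    GoodS h u (ZO M q d y0 y1) (ga M q d y1 - ga M q d y0 - 6 * (y1 - y0)) := by
  have hG5 : 5 ≤ G := by linarith
  induction n with
  | zero =>
    intro y0 h1 h2 _
    simp at h2
    linarith
  | succ n ih =>
    intro y0 h1 h2 hr0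
    push_cast at h2
    rcases le_or_gt (y1 - y0) (5 / 2 * G) with hs | hs
    · have e : y0 + (y1 - y0) = y1 := by ring
      have := hStrip (h := h) (u := u) (M := M) (q := q) (d := d) (y0 := y0) (H := y1 - y0) hh
        (by linarith) hu0 (by nlinarith) (by linarith) (by rw [e]; linarith)
      rw [e] at this
      exact this
    · have hr : ∀ t, y0 ≤ t → t ≤ y1 → 13 * G ≤ rl M q d t := fun t a b => rl_conc a b hr0 hr1
      refine hDiv (t0 := y0 + G) (t1 := y0 + 3 / 2 * G) (fun t => ZO M q d y0 t)
        (fun t => ZO M q d t y1) (fun t => ga M q d t - ga M q d y0 - 6 * (t - y0))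
        (fun t => ga M q d y1 - ga M q d t - 6 * (y1 - t)) (by linarith) ?_ ?_ ?_ hu0 ?_ ?_ ?_ ?_
      · have := ga_cont M q d
        exact Continuous.continuousOn (by fun_prop)
      · have := ga_grow hArea (M := M) (q := q) (d := d) (s := y0) (t := y0 + G) (K := 13 * G)
          (by linarith) hr0 (hr _ (by linarith) (by linarith))
        nlinarith
      · have := ga_grow hArea (M := M) (q := q) (d := d) (s := y0 + G) (t := y0 + 3 / 2 * G)
          (K := 13 * G) (by linarith) (hr _ (by linarith) (by linarith))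
          (hr _ (by linarith) (by linarith))
        nlinarith
      · intro t _
        linarith
      · intro t ht
        have e : y0 + (t - y0) = t := by ring
        have := hStrip (h := h) (u := u) (M := M) (q := q) (d := d) (y0 := y0) (H := t - y0) hh
          (by linarith [ht.1]) hu0 (by nlinarith [ht.1]) (by linarith [ht.2])
          (by rw [e]; linarith [ht.2, hr t (by linarith [ht.1]) (by linarith [ht.2])])
        rw [e] at this
        exact this
      · intro t ht
        exact ih t (by linarith [ht.2]) (by linarith [ht.1])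
          (hr t (by linarith [ht.1]) (by linarith [ht.2]))
      · intro t ht M1 M2 g1 g2
        refine hCut 0 1 t ?_ ?_ g1 g2
        · intro p hp
          obtain ⟨p1, p2, p3, p4, p5, p6⟩ := hp
          exact ⟨⟨p1, by linarith [ht.2], p3, p4, p5, p6⟩, by linarith⟩
        · intro p hp
          obtain ⟨p1, p2, p3, p4, p5, p6⟩ := hp
          exact ⟨⟨by linarith [ht.1], p2, p3, p4, p5, p6⟩, by linarith⟩

theorem stackS : S_Stack := by
  intro hCut hArea hDiv hStrip h u G M q d y0 y1 hh hG hu0 hu h1 hr0 hr1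
  have hG0 : 0 < G := by linarith
  obtain ⟨n, hn⟩ := exists_nat_ge ((y1 - y0) / G)
  exact stackS_aux hCut hArea hDiv hStrip hh hG hu0 hu hr1 n y0 h1 ((div_le_iff₀ hG0).1 hn) hr0

theorem stackE_aux (hCut : S_CutE) (hArea : S_Area) (hDiv : S_DivE) (hStrip : StripE)
    {h u G M q d y1 : ℝ} (hh : 1 ≤ h) (hG : 5 * h ≤ G) (hu0 : 0 ≤ u) (hu : u ≤ G ^ 2)
    (hr1 : 13 * G ≤ rl M q d y1) (n : ℕ) : ∀ y0 : ℝ, y0 + G ≤ y1 → y1 - y0 ≤ n * G →
    13 * G ≤ rl M q d y0 →
    GoodE h u (ZC M q d y0 y1) (ga M q d y1 - ga M q d y0) := by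
  have hG5 : 5 ≤ G := by linarith
  induction n with
  | zero =>
    intro y0 h1 h2 _
    simp at h2
    linarith
  | succ n ih =>
    intro y0 h1 h2 hr0
    push_cast at h2
    rcases le_or_gt (y1 - y0) (5 / 2 * G) with hs | hs
    · have e : y0 + (y1 - y0) = y1 := by ring
      have := hStrip (h := h) (u := u) (M := M) (q := q) (d := d) (y0 := y0) (H := y1 - y0) hh
        (by linarith) hu0 (by nlinarith) (by linarith) (by rw [e]; linarith)
      rw [e] at this
      exact this
    · have hr : ∀ t, y0 ≤ t → t ≤ y1 → 13 * G ≤ rl M q d t := fun t a b => rl_conc a b hr0 hr1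
      refine hDiv (t0 := y0 + G) (t1 := y0 + 3 / 2 * G) (fun t => ZC M q d y0 t)
        (fun t => ZC M q d t y1) (fun t => ga M q d t - ga M q d y0)
        (fun t => ga M q d y1 - ga M q d t) (by linarith) ?_ ?_ ?_ hu0 ?_ ?_ ?_ ?_ ?_
      · have := ga_cont M q d
        exact Continuous.continuousOn (by fun_prop)
      · have := ga_grow hArea (M := M) (q := q) (d := d) (s := y0) (t := y0 + G) (K := 13 * G)
          (by linarith) hr0 (hr _ (by linarith) (by linarith))
        nlinarith
      · have := ga_grow hArea (M := M) (q := q) (d := d) (s := y0 + G) (t := y0 + 3 / 2 * G)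
          (K := 13 * G) (by linarith) (hr _ (by linarith) (by linarith))
          (hr _ (by linarith) (by linarith))
        nlinarith
      · intro t _
        linarith
      · intro t ht
        have := ga_grow hArea (M := M) (q := q) (d := d) (s := t) (t := y1)
          (K := 13 * G) (by linarith [ht.2]) (hr _ (by linarith [ht.1]) (by linarith [ht.2])) hr1
        have h3 : 0 ≤ 2 * (13 * G) * (y1 - t) := mul_nonneg (by linarith) (by linarith [ht.2])
        linarith
      · intro t ht
        have e : y0 + (t - y0) = t := by ring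
        have := hStrip (h := h) (u := u) (M := M) (q := q) (d := d) (y0 := y0) (H := t - y0) hh
          (by linarith [ht.1]) hu0 (by nlinarith [ht.1]) (by linarith [ht.2])
          (by rw [e]; linarith [ht.2, hr t (by linarith [ht.1]) (by linarith [ht.2])])
        rw [e] at this
        exact this
      · intro t ht
        exact ih t (by linarith [ht.2]) (by linarith [ht.1])
          (hr t (by linarith [ht.1]) (by linarith [ht.2]))
      · intro t ht M1 M2 g1 g2
        refine hCut 0 1 t (ZC_finite _ _ _ _ _) ?_ g1 g2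
        intro p hp
        obtain ⟨p1, p2, p3, p4, p5, p6⟩ := hp
        rcases le_or_gt (p.2 : ℝ) t with g | g
        · left
          exact ⟨⟨p1, g, p3, p4, p5, p6⟩, by linarith⟩
        · right
          exact ⟨⟨g.le, p2, p3, p4, p5, p6⟩, by linarith⟩

theorem stackE : S_StackE := by
  intro hCut hArea hDiv hStrip h u G M q d y0 y1 hh hG hu0 hu h1 hr0 hr1
  have hG0 : 0 < G := by linarith
  obtain ⟨n, hn⟩ := exists_nat_ge ((y1 - y0) / G)
  exact stackE_aux hCut hArea hDiv hStrip hh hG hu0 hu hr1 n y0 h1 ((div_le_iff₀ hG0).1 hn) hr0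

end Pool.Agent.Q187.WR
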