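import Pool.Agent.H200W.Stm3

/-! # Project WR: F5, strips of the polygon -/

set_option autoImplicit false

namespace Pool.Agent.Q187.WR

open Pool.Agent.H200W

/-- chord of the left boundary -/
noncomputable def cl (M y0 H y : ℝ) : ℝ :=
  max 0 (M - y0) + (max 0 (M - (y0 + H)) - max 0 (M - y0)) / H * (y - y0)

/-- chord of the right boundary -/
noncomputable def cr (q d y0 H y : ℝ) : ℝ :=
  min q (d - y0) + (min q (d - (y0 + H)) - min q (d - y0)) / H * (y - y0)

/-- the height at which the left boundary bends -/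
noncomputable def ca (M y0 H : ℝ) : ℝ := max 0 (min H (M - y0))

theorem ca_nonneg (M y0 H : ℝ) : 0 ≤ ca M y0 H := le_max_left _ _

theorem ca_le {M y0 H : ℝ} (hH : 0 ≤ H) : ca M y0 H ≤ H := max_le hH (min_le_left _ _)

theorem lin_ge {A B H K t : ℝ} (hH : 0 < H) (ht : 0 ≤ t) (ht' : t ≤ H) (hA : K ≤ A) (hB : K ≤ B) :
    K ≤ A + (B - A) / H * t := by
  have h1 : 0 ≤ t / H := div_nonneg ht hH.le
  have h2 : t / H ≤ 1 := (div_le_one hH).2 ht'
  have h3 : A + (B - A) / H * t = A * (1 - t / H) + B * (t / H) := by ring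
  rw [h3]
  nlinarith [mul_nonneg (sub_nonneg.2 h2) (sub_nonneg.2 hA), mul_nonneg h1 (sub_nonneg.2 hB)]

/-- the bump of the left boundary, `a` the height of the bend -/
noncomputable def bu (a y0 H y : ℝ) : ℝ := min ((1 - a / H) * (y - y0)) (a / H * (y0 + H - y))

theorem bu_nonneg {a y0 H y : ℝ} (hH : 0 < H) (ha : 0 ≤ a) (ha' : a ≤ H) (h0 : y0 ≤ y)
    (h1 : y ≤ y0 + H) : 0 ≤ bu a y0 H y := by
  have h2 : a / H ≤ 1 := (div_le_one hH).2 ha'
  exact le_min (mul_nonneg (by linarith) (by linarith))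
    (mul_nonneg (div_nonneg ha hH.le) (by linarith))

theorem facts (hB : S_Bend) {M q d y0 H y : ℝ} (hH : 0 < H) (h0 : y0 ≤ y) (h1 : y ≤ y0 + H)
    (hr0 : 5 * H ≤ rl M q d y0) (hr1 : 5 * H ≤ rl M q d (y0 + H)) :
    cl M y0 H y = max 0 (M - y) + bu (ca M y0 H) y0 H y ∧
    min q (d - y) = cr q d y0 H y + bu (ca (d - q) y0 H) y0 H y ∧
    cl M y0 H y + 5 * H ≤ cr q d y0 H y ∧
    cr q d y0 H y = cl M y0 H y + (rl M q d y0 + (rl M q d (y0 + H) - rl M q d y0) / H * (y - y0)) := by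
  have hb := hB (M := M) (q := q) (d := d) (y0 := y0) (H := H) (t := y - y0) hH (by linarith)
    (by linarith)
  have e1 : y0 + (y - y0) = y := by ring
  have e2 : H - (y - y0) = y0 + H - y := by ring
  rw [e1, e2] at hb
  have h4 : cr q d y0 H y = cl M y0 H y +
      (rl M q d y0 + (rl M q d (y0 + H) - rl M q d y0) / H * (y - y0)) := by
    unfold cr cl rl
    ring
  refine ⟨hb.1, hb.2, ?_, h4⟩
  rw [h4]
  linarith [lin_ge (t := y - y0) hH (by linarith) (by linarith) hr0 hr1]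

theorem area' (hA : S_Area) {M q d y0 H : ℝ} (hH : 0 < H) :
    ga M q d (y0 + H) - ga M q d y0 = (rl M q d y0 + rl M q d (y0 + H)) * H +
      ca M y0 H * (H - ca M y0 H) + ca (d - q) y0 H * (H - ca (d - q) y0 H) := by
  have := hA (M := M) (q := q) (d := d) (y0 := y0) hH
  exact this

theorem stripS : S_Strip := by
  intro hCut hArea hBend hDiv hLin hBump h u M q d y0 H hh hhH hu0 hu hr0 hr1
  have hH5 : 5 ≤ H := by linarith
  have hH : 0 < H := by linarith
  set a := ca M y0 H with ha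
  set b := ca (d - q) y0 H with hb
  have ha0 : 0 ≤ a := ca_nonneg _ _ _
  have hb0 : 0 ≤ b := ca_nonneg _ _ _
  have ha1 : a ≤ H := ca_le hH.le
  have hb1 : b ≤ H := ca_le hH.le
  have haH : a / H ≤ 1 := (div_le_one hH).2 ha1
  have hbH : b / H ≤ 1 := (div_le_one hH).2 hb1
  have haH0 : 0 ≤ a / H := div_nonneg ha0 hH.le
  have hbH0 : 0 ≤ b / H := div_nonneg hb0 hH.le
  have key : ∀ y : ℝ, y0 < y → y < y0 + H →
      cl M y0 H y = max 0 (M - y) + bu a y0 H y ∧
      min q (d - y) = cr q d y0 H y + bu b y0 H y ∧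
      cl M y0 H y + 5 * H ≤ cr q d y0 H y ∧
      cr q d y0 H y = cl M y0 H y +
        (rl M q d y0 + (rl M q d (y0 + H) - rl M q d y0) / H * (y - y0)) ∧
      0 ≤ bu a y0 H y ∧ 0 ≤ bu b y0 H y := by
    intro y h0 h1
    obtain ⟨f1, f2, f3, f4⟩ := facts hBend (y := y) hH h0.le h1.le hr0 hr1
    exact ⟨f1, f2, f3, f4, bu_nonneg hH ha0 ha1 h0.le h1.le, bu_nonneg hH hb0 hb1 h0.le h1.le⟩
  -- the second division, for a fixed `e`
  have step : ∀ e ∈ Set.Icc (H + 1) (3 / 2 * H + 1),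
      GoodS h u {p : ℤ × ℤ | y0 < (p.2 : ℝ) ∧ (p.2 : ℝ) < y0 + H ∧
        cl M y0 H p.2 + e < (p.1 : ℝ) ∧ (p.1 : ℝ) < min q (d - p.2)}
        (b * (H - b) - 4 * H + (rl M q d y0 + rl M q d (y0 + H) - 2 * e) * H) := by
    intro e he
    refine hDiv (t0 := H + 1) (t1 := 3 / 2 * H + 1)
      (fun t => {p : ℤ × ℤ | y0 < (p.2 : ℝ) ∧ (p.2 : ℝ) < y0 + H ∧
        (cr q d y0 H p.2 - t) < (p.1 : ℝ) ∧ (p.1 : ℝ) < (cr q d y0 H p.2 - t) + (t +
          min ((1 - b / H) * (p.2 - y0)) (b / H * (y0 + H - p.2)))})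
      (fun t => {p : ℤ × ℤ | y0 < (p.2 : ℝ) ∧ (p.2 : ℝ) < y0 + H ∧
        (cl M y0 H p.2 + e) < (p.1 : ℝ) ∧ (p.1 : ℝ) < (cl M y0 H p.2 + e) +
          ((rl M q d y0 - e - t) + ((rl M q d (y0 + H) - e - t) - (rl M q d y0 - e - t)) / H *
            (p.2 - y0))})
      (fun t => (2 * t + (1 - b / H) * (b / H) * H) * H - 2 * H)
      (fun t => ((rl M q d y0 - e - t) + (rl M q d (y0 + H) - e - t)) * H - 2 * H)
      (by linarith) (by fun_prop) ?_ ?_ hu0 ?_ ?_ ?_ ?_
    · nlinarith [mul_nonneg (mul_nonneg (mul_nonneg (sub_nonneg.2 hbH) hbH0) hH.le) hH.le]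
    · nlinarith
    · intro t _
      have e1 : (1 - b / H) * (b / H) * H * H = b * (H - b) := by field_simp
      nlinarith
    · intro t ht
      exact hBump (fun y => cr q d y0 H y - t) hh hhH (by linarith [ht.1]) (by linarith) hbH0
        (by ring)
    · intro t ht
      exact hLin (fun y => cl M y0 H y + e) hh hhH (by linarith [ht.2, he.2])
        (by linarith [ht.2, he.2])
    · intro t ht M1 M2 h1 h2
      rw [add_comm]
      refine hCut 1 (-((min q (d - (y0 + H)) - min q (d - y0)) / H))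
        (min q (d - y0) - (min q (d - (y0 + H)) - min q (d - y0)) / H * y0 - t) ?_ ?_ h2 h1
      · intro p hp
        obtain ⟨p1, p2, p3, p4⟩ := hp
        obtain ⟨f1, f2, f3, f4, f5, f6⟩ := key p.2 p1 p2
        have g : (p.1 : ℝ) < cr q d y0 H p.2 - t := by
          rw [f4]
          have e3 : (cl M y0 H p.2 + e) +
            ((rl M q d y0 - e - t) + ((rl M q d (y0 + H) - e - t) - (rl M q d y0 - e - t)) / H *
            (p.2 - y0)) = cl M y0 H p.2 + (rl M q d y0 + (rl M q d (y0 + H) - rl M q d y0) / H * (p.2 - y0)) - t := by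
            ring
          rw [← e3]
          exact p4
        refine ⟨⟨p1, p2, p3, ?_⟩, ?_⟩
        · rw [f2]
          linarith [ht.1]
        · unfold cr at g
          linarith
      · intro p hp
        obtain ⟨p1, p2, p3, p4⟩ := hp
        obtain ⟨f1, f2, f3, f4, f5, f6⟩ := key p.2 p1 p2
        refine ⟨⟨p1, p2, ?_, ?_⟩, ?_⟩
        · linarith [ht.2, he.2]
        · rw [f2]
          unfold bu
          linarith
        · unfold cr at p3
          linarith
  rw [area' hArea hH, ← ha, ← hb]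
  refine hDiv (t0 := H + 1) (t1 := 3 / 2 * H + 1)
      (fun t => {p : ℤ × ℤ | y0 < (p.2 : ℝ) ∧ (p.2 : ℝ) < y0 + H ∧
        max 0 (M - p.2) < (p.1 : ℝ) ∧ (p.1 : ℝ) < max 0 (M - p.2) + (t +
          min ((1 - a / H) * (p.2 - y0)) (a / H * (y0 + H - p.2)))})
      (fun t => {p : ℤ × ℤ | y0 < (p.2 : ℝ) ∧ (p.2 : ℝ) < y0 + H ∧
        cl M y0 H p.2 + t < (p.1 : ℝ) ∧ (p.1 : ℝ) < min q (d - p.2)})
      (fun t => (2 * t + (1 - a / H) * (a / H) * H) * H - 2 * H)
      (fun t => b * (H - b) - 4 * H + (rl M q d y0 + rl M q d (y0 + H) - 2 * t) * H)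
      (by linarith) (by fun_prop) ?_ ?_ hu0 ?_ ?_ step ?_
  · nlinarith [mul_nonneg (mul_nonneg (mul_nonneg (sub_nonneg.2 haH) haH0) hH.le) hH.le]
  · nlinarith
  · intro t _
    have e1 : (1 - a / H) * (a / H) * H * H = a * (H - a) := by field_simp
    nlinarith
  · intro t ht
    exact hBump (fun y => max 0 (M - y)) hh hhH (by linarith [ht.1]) (by linarith) haH0
      (by ring)
  · intro t ht M1 M2 h1 h2
    refine hCut 1 (-((max 0 (M - (y0 + H)) - max 0 (M - y0)) / H))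
        (max 0 (M - y0) - (max 0 (M - (y0 + H)) - max 0 (M - y0)) / H * y0 + t) ?_ ?_ h1 h2
    · intro p hp
      obtain ⟨p1, p2, p3, p4⟩ := hp
      obtain ⟨f1, f2, f3, f4, f5, f6⟩ := key p.2 p1 p2
      have g : (p.1 : ℝ) < cl M y0 H p.2 + t := by
        rw [f1]
        unfold bu
        linarith
      have g0 : (0 : ℝ) < p.1 := lt_of_le_of_lt (le_max_left _ _) p3
      have g1 : (p.1 : ℝ) < min q (d - p.2) := by
        rw [f2]
        linarith [ht.2]
      refine ⟨⟨p1, p2, by exact_mod_cast g0, lt_of_le_of_lt (le_max_right _ _) p3,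
        lt_of_lt_of_le g1 (min_le_left _ _), lt_of_lt_of_le g1 (min_le_right _ _)⟩, ?_⟩
      unfold cl at g
      linarith
    · intro p hp
      obtain ⟨p1, p2, p3, p4⟩ := hp
      obtain ⟨f1, f2, f3, f4, f5, f6⟩ := key p.2 p1 p2
      have g2 : max 0 (M - p.2) < (p.1 : ℝ) := by linarith [ht.1]
      have g0 : (0 : ℝ) < p.1 := lt_of_le_of_lt (le_max_left _ _) g2
      refine ⟨⟨p1, p2, by exact_mod_cast g0, lt_of_le_of_lt (le_max_right _ _) g2,
        lt_of_lt_of_le p4 (min_le_left _ _), lt_of_lt_of_le p4 (min_le_right _ _)⟩, ?_⟩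
      unfold cl at p3
      linarith

end Pool.Agent.Q187.WR
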