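import Pool.Agent.Q187.WR.Strip

/-! # Project WR: F5E, strips of the polygon, emptiness -/

set_option autoImplicit false

namespace Pool.Agent.Q187.WR

open Pool.Agent.H200W

theorem ZC_finite (M q d y0 y1 : ℝ) : (ZC M q d y0 y1).Finite := by
  refine (Set.finite_Icc ((0 : ℤ), ⌈y0⌉) (⌊q⌋, ⌊y1⌋)).subset ?_
  rintro ⟨x, y⟩ ⟨h1, h2, h3, h4, h5, h6⟩
  exact ⟨⟨h3, Int.ceil_le.2 h1⟩, ⟨Int.le_floor.2 h5, Int.le_floor.2 h2⟩⟩

theorem stripE : S_StripE := by
  intro hCut hArea hBend hDiv hLin hBump h u M q d y0 H hh hhH hu0 hu hr0 hr1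
  have hH5 : 5 ≤ H := by linarith
  have hH : 0 < H := by linarith
  set a := ca M y0 H with ha
  set b := ca (d - q) y0 H with hb
  have ha0 : 0 ≤ a := ca_nonneg _ _ _
  have hb0 : 0 ≤ b := ca_nonneg _ _ _
  have ha1 : a ≤ H := ca_le hH.le
  have hb1 : b ≤ H := ca_le hH.le
  have haH : a / H ≤ 1 := (div_le_one hH).2 ha1
  have hbH : b / H ≤ 1 := (div_le_one hH).2 hb1
  have haH0 : 0 ≤ a / H := div_nonneg ha0 hH.le
  have hbH0 : 0 ≤ b / H := div_nonneg hb0 hH.le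
  have key : ∀ y : ℝ, y0 ≤ y → y ≤ y0 + H →
      cl M y0 H y = max 0 (M - y) + bu a y0 H y ∧
      min q (d - y) = cr q d y0 H y + bu b y0 H y ∧
      cl M y0 H y + 5 * H ≤ cr q d y0 H y ∧
      cr q d y0 H y = cl M y0 H y +
        (rl M q d y0 + (rl M q d (y0 + H) - rl M q d y0) / H * (y - y0)) ∧
      0 ≤ bu a y0 H y ∧ 0 ≤ bu b y0 H y := by
    intro y h0 h1
    obtain ⟨f1, f2, f3, f4⟩ := facts hBend (y := y) hH h0 h1 hr0 hr1
    exact ⟨f1, f2, f3, f4, bu_nonneg hH ha0 ha1 h0 h1, bu_nonneg hH hb0 hb1 h0 h1⟩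
  have hfin : ∀ e : ℝ, 0 ≤ e → {p : ℤ × ℤ | y0 ≤ (p.2 : ℝ) ∧ (p.2 : ℝ) ≤ y0 + H ∧
        cl M y0 H p.2 + e ≤ (p.1 : ℝ) ∧ (p.1 : ℝ) ≤ min q (d - p.2)}.Finite := by
    intro e he
    refine (ZC_finite M q d y0 (y0 + H)).subset ?_
    intro p hp
    obtain ⟨p1, p2, p3, p4⟩ := hp
    obtain ⟨f1, f2, f3, f4, f5, f6⟩ := key p.2 p1 p2
    have g2 : max 0 (M - p.2) ≤ (p.1 : ℝ) := by linarith
    have g0 : (0 : ℝ) ≤ p.1 := le_trans (le_max_left _ _) g2
    exact ⟨p1, p2, by exact_mod_cast g0, le_trans (le_max_right _ _) g2,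
        le_trans p4 (min_le_left _ _), le_trans p4 (min_le_right _ _)⟩
  -- the second division, for a fixed `e`
  have step : ∀ e ∈ Set.Icc H (3 / 2 * H),
      GoodE h u {p : ℤ × ℤ | y0 ≤ (p.2 : ℝ) ∧ (p.2 : ℝ) ≤ y0 + H ∧
        cl M y0 H p.2 + e ≤ (p.1 : ℝ) ∧ (p.1 : ℝ) ≤ min q (d - p.2)}
        (b * (H - b) + (rl M q d y0 + rl M q d (y0 + H) - 2 * e) * H) := by
    intro e he
    refine hDiv (t0 := H) (t1 := 3 / 2 * H)
      (fun t => {p : ℤ × ℤ | y0 ≤ (p.2 : ℝ) ∧ (p.2 : ℝ) ≤ y0 + H ∧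
        (cr q d y0 H p.2 - t) ≤ (p.1 : ℝ) ∧ (p.1 : ℝ) ≤ (cr q d y0 H p.2 - t) + (t +
          min ((1 - b / H) * (p.2 - y0)) (b / H * (y0 + H - p.2)))})
      (fun t => {p : ℤ × ℤ | y0 ≤ (p.2 : ℝ) ∧ (p.2 : ℝ) ≤ y0 + H ∧
        (cl M y0 H p.2 + e) ≤ (p.1 : ℝ) ∧ (p.1 : ℝ) ≤ (cl M y0 H p.2 + e) +
          ((rl M q d y0 - e - t) + ((rl M q d (y0 + H) - e - t) - (rl M q d y0 - e - t)) / H *
            (p.2 - y0))})
      (fun t => (2 * t + (1 - b / H) * (b / H) * H) * H)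
      (fun t => ((rl M q d y0 - e - t) + (rl M q d (y0 + H) - e - t)) * H)
      (by linarith) (by fun_prop) ?_ ?_ hu0 ?_ ?_ ?_ ?_ ?_
    · nlinarith [mul_nonneg (mul_nonneg (mul_nonneg (sub_nonneg.2 hbH) hbH0) hH.le) hH.le]
    · nlinarith
    · intro t _
      have e1 : (1 - b / H) * (b / H) * H * H = b * (H - b) := by field_simp
      nlinarith
    · intro t ht
      exact mul_nonneg (by linarith [ht.2, he.2]) hH.le
    · intro t ht
      exact hBump (fun y => cr q d y0 H y - t) hh hhH (by linarith [ht.1]) (by linarith) hbH0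
        (by ring)
    · intro t ht
      exact hLin (fun y => cl M y0 H y + e) hh hhH (by linarith [ht.2, he.2])
        (by linarith [ht.2, he.2])
    · intro t ht M1 M2 h1 h2
      rw [add_comm]
      refine hCut 1 (-((min q (d - (y0 + H)) - min q (d - y0)) / H))
        (min q (d - y0) - (min q (d - (y0 + H)) - min q (d - y0)) / H * y0 - t)
        (hfin e (by linarith [he.1])) ?_ h2 h1
      intro p hp
      obtain ⟨p1, p2, p3, p4⟩ := hp
      obtain ⟨f1, f2, f3, f4, f5, f6⟩ := key p.2 p1 p2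
      have e3 : (cl M y0 H p.2 + e) +
            ((rl M q d y0 - e - t) + ((rl M q d (y0 + H) - e - t) - (rl M q d y0 - e - t)) / H *
            (p.2 - y0)) = cr q d y0 H p.2 - t := by
        rw [f4]
        ring
      rcases le_or_gt (p.1 : ℝ) (cr q d y0 H p.2 - t) with g | g
      · left
        refine ⟨⟨p1, p2, p3, ?_⟩, ?_⟩
        · rw [e3]
          exact g
        · unfold cr at g
          linarith
      · right
        refine ⟨⟨p1, p2, g.le, ?_⟩, ?_⟩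
        · rw [f2] at p4
          unfold bu at p4
          linarith
        · unfold cr at g
          linarith
  rw [area' hArea hH, ← ha, ← hb]
  refine hDiv (t0 := H) (t1 := 3 / 2 * H)
      (fun t => {p : ℤ × ℤ | y0 ≤ (p.2 : ℝ) ∧ (p.2 : ℝ) ≤ y0 + H ∧
        max 0 (M - p.2) ≤ (p.1 : ℝ) ∧ (p.1 : ℝ) ≤ max 0 (M - p.2) + (t +
          min ((1 - a / H) * (p.2 - y0)) (a / H * (y0 + H - p.2)))})
      (fun t => {p : ℤ × ℤ | y0 ≤ (p.2 : ℝ) ∧ (p.2 : ℝ) ≤ y0 + H ∧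
        cl M y0 H p.2 + t ≤ (p.1 : ℝ) ∧ (p.1 : ℝ) ≤ min q (d - p.2)})
      (fun t => (2 * t + (1 - a / H) * (a / H) * H) * H)
      (fun t => b * (H - b) + (rl M q d y0 + rl M q d (y0 + H) - 2 * t) * H)
      (by linarith) (by fun_prop) ?_ ?_ hu0 ?_ ?_ ?_ step ?_
  · nlinarith [mul_nonneg (mul_nonneg (mul_nonneg (sub_nonneg.2 haH) haH0) hH.le) hH.le]
  · nlinarith
  · intro t _
    have e1 : (1 - a / H) * (a / H) * H * H = a * (H - a) := by field_simp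
    nlinarith
  · intro t ht
    have : 0 ≤ (rl M q d y0 + rl M q d (y0 + H) - 2 * t) * H :=
      mul_nonneg (by linarith [ht.2]) hH.le
    have h3 : 0 ≤ b * (H - b) := mul_nonneg hb0 (by linarith)
    linarith
  · intro t ht
    exact hBump (fun y => max 0 (M - y)) hh hhH (by linarith [ht.1]) (by linarith) haH0
      (by ring)
  · intro t ht M1 M2 h1 h2
    refine hCut 1 (-((max 0 (M - (y0 + H)) - max 0 (M - y0)) / H))
        (max 0 (M - y0) - (max 0 (M - (y0 + H)) - max 0 (M - y0)) / H * y0 + t)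
        (ZC_finite M q d y0 (y0 + H)) ?_ h1 h2
    intro p hp
    obtain ⟨p1, p2, p3, p4, p5, p6⟩ := hp
    obtain ⟨f1, f2, f3, f4, f5, f6⟩ := key p.2 p1 p2
    have p3' : (0 : ℝ) ≤ p.1 := by exact_mod_cast p3
    rcases le_or_gt (p.1 : ℝ) (cl M y0 H p.2 + t) with g | g
    · left
      refine ⟨⟨p1, p2, max_le p3' p4, ?_⟩, ?_⟩
      · rw [f1] at g
        unfold bu at g
        linarith
      · unfold cl at g
        linarith
    · right
      refine ⟨⟨p1, p2, g.le, le_min p5 p6⟩, ?_⟩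
      unfold cl at g
      linarith

end Pool.Agent.Q187.WR
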